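import Pool.Agent.Run7.h719.MO.Iface

/-!
# Project MO (helper719), piece INJ: the Abel transform is injective
-/

set_option autoImplicit false

open MeasureTheory Set Filter Real Topology
open scoped ContDiff

namespace Run7.h639.MO

open Run7.h719.MO

/-- **INJ** -/
theorem t_INJ (h : S_POL) : S_INJ := by
  intro c D G hG hc hD
  have hB : ∀ y ≤ D, Bop (fun _ => 1) G y = 0 := by
    intro y hy
    unfold Bop
    simpa using hD y hy
  have hL : ∀ p, Lk (fun _ => 1) p = π := by
    intro p
    unfold Lk
    rw [intervalIntegral.integral_const, smul_eq_mul]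
    ring
  have h1 : ∀ y ≤ D, (∫ τ in c..y, G τ) = 0 := by
    intro y hy
    have h2 := h c (fun _ => 1) G continuous_const hG hc y
    have h3 : ∀ η : ℝ, Bop (fun _ => 1) G (y - η ^ 2) = 0 := fun η => hB _ (by nlinarith [sq_nonneg η])
    simp only [h3, hL, integral_zero, intervalIntegral.integral_const_mul] at h2
    exact (mul_eq_zero.1 h2.symm).resolve_left pi_pos.ne'
  have h4 : ∀ y < D, G y = 0 := by
    intro y hy
    have h5 : HasDerivAt (fun u => ∫ τ in c..u, G τ) (G y) y :=
      intervalIntegral.integral_hasDerivAt_right (hG.intervalIntegrable _ _)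
        hG.aestronglyMeasurable.stronglyMeasurableAtFilter hG.continuousAt
    have h6 : (fun u => ∫ τ in c..u, G τ) =ᶠ[𝓝 y] fun _ => (0 : ℝ) := by
      filter_upwards [Iio_mem_nhds hy] with u hu
      exact h1 u (le_of_lt hu)
    have h7 : HasDerivAt (fun u => ∫ τ in c..u, G τ) 0 y := (hasDerivAt_const y (0 : ℝ)).congr_of_eventuallyEq h6
    exact h5.unique h7
  intro x hx
  rcases hx.lt_or_eq with hx | rfl
  · exact h4 x hx
  · have h8 : Tendsto G (𝓝[<] x) (𝓝 (G x)) := hG.continuousAt.tendsto.mono_left nhdsWithin_le_nhds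
    have h9 : Tendsto G (𝓝[<] x) (𝓝 0) := by
      refine tendsto_const_nhds.congr' ?_
      filter_upwards [self_mem_nhdsWithin] with y hy
      exact (h4 y hy).symm
    exact tendsto_nhds_unique h8 h9

end Run7.h639.MO
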